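import Pool.Agent.H95.FG.Defs

/-!
# Part MAIN of crew FG
-/

open MvPolynomial

namespace H81.FG

open H95.FG

theorem exists_perp {n : ℕ} (hn : 4 ≤ n) (Y z1 z2 : Fin n → ℂ) :
    ∃ u : Fin n → ℂ, ∑ k, u k * Y k = 0 ∧ u ∉ Submodule.span ℂ ({z1, z2} : Set (Fin n → ℂ)) := by
  classical
  let φ : (Fin n → ℂ) →ₗ[ℂ] ℂ :=
    { toFun := fun x => ∑ k, x k * Y k
      map_add' := by
        intro x y
        simp only [Pi.add_apply, add_mul, Finset.sum_add_distrib]
      map_smul' := by
        intro c x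
        simp only [Pi.smul_apply, smul_eq_mul, RingHom.id_apply, Finset.mul_sum, mul_assoc] }
  by_contra hcon
  push Not at hcon
  have hle : LinearMap.ker φ ≤ Submodule.span ℂ ({z1, z2} : Set (Fin n → ℂ)) := by
    intro u hu
    exact hcon u (LinearMap.mem_ker.1 hu)
  have h1 := LinearMap.finrank_range_add_finrank_ker φ
  have h2 : Module.finrank ℂ (LinearMap.range φ) ≤ 1 := by
    have := Submodule.finrank_le (LinearMap.range φ)
    rwa [Module.finrank_self] at this
  have h3 : Module.finrank ℂ (LinearMap.ker φ) ≤ 2 := by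
    refine (Submodule.finrank_mono hle).trans ?_
    have h4 := finrank_span_finset_le_card (R := ℂ) ({z1, z2} : Finset (Fin n → ℂ))
    have h5 : ((({z1, z2} : Finset (Fin n → ℂ)) : Set (Fin n → ℂ))) = {z1, z2} := by
      push_cast; rfl
    rw [h5] at h4
    exact h4.trans Finset.card_le_two
  rw [Module.finrank_fin_fun] at h1
  omega

theorem li3_of_notMem {n : ℕ} {z1 z2 u : Fin n → ℂ} (h : LinearIndependent ℂ ![z1, z2])
    (hu : u ∉ Submodule.span ℂ ({z1, z2} : Set (Fin n → ℂ))) :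
    LinearIndependent ℂ ![z1, z2, u] := by
  rw [LinearIndependent.pair_iff] at h
  rw [Fintype.linearIndependent_iff]
  intro g hg
  rw [Fin.sum_univ_three] at hg
  simp only [Matrix.cons_val_zero, Matrix.cons_val_one, Matrix.cons_val_two, Matrix.head_cons,
    Matrix.tail_cons] at hg
  have hg2 : g 2 = 0 := by
    by_contra h2
    apply hu
    rw [Submodule.mem_span_pair]
    refine ⟨-(g 2)⁻¹ * g 0, -(g 2)⁻¹ * g 1, ?_⟩
    have : u = (g 2)⁻¹ • (g 2 • u) := by rw [smul_smul, inv_mul_cancel₀ h2, one_smul]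
    rw [this, ← sub_eq_zero]
    have e : (-(g 2)⁻¹ * g 0) • z1 + (-(g 2)⁻¹ * g 1) • z2 - (g 2)⁻¹ • g 2 • u =
        -(g 2)⁻¹ • (g 0 • z1 + g 1 • z2 + g 2 • u) := by
      module
    rw [e, hg, smul_zero]
  rw [hg2, zero_smul, add_zero] at hg
  obtain ⟨h0, h1⟩ := h _ _ hg
  intro i
  fin_cases i
  · exact h0
  · exact h1
  · exact hg2

theorem li3_change {n : ℕ} {z1 z2 u : Fin n → ℂ} (h : LinearIndependent ℂ ![z1, z2, u])
    (s τ : ℂ) : LinearIndependent ℂ ![s • z1 + z2 + τ • u, z1, u] := by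
  rw [Fintype.linearIndependent_iff] at h ⊢
  intro g hg
  rw [Fin.sum_univ_three] at hg
  simp only [Matrix.cons_val_zero, Matrix.cons_val_one, Matrix.cons_val_two, Matrix.head_cons,
    Matrix.tail_cons] at hg
  have h' := h ![g 0 * s + g 1, g 0, g 0 * τ + g 2] (by
    rw [Fin.sum_univ_three]
    simp only [Matrix.cons_val_zero, Matrix.cons_val_one, Matrix.cons_val_two, Matrix.head_cons,
      Matrix.tail_cons]
    rw [← hg]
    module)
  have h0 : g 0 = 0 := by simpa using h' 1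
  have h1 : g 1 = 0 := by
    have := h' 0
    simp only [Matrix.cons_val_zero, h0, zero_mul, zero_add] at this
    exact this
  have h2 : g 2 = 0 := by
    have := h' 2
    simp only [Matrix.cons_val_two, Matrix.tail_cons, Matrix.head_cons, h0,
      zero_mul, zero_add] at this
    exact this
  intro i
  fin_cases i
  · exact h0
  · exact h1
  · exact h2

theorem t_MAIN (hR2 : S_R2) (hZFP : S_ZFP) (hOPEN : S_OPEN) (hZFLI : S_ZFLI) (hHOMA : S_HOMA)
    (hNV : S_NV) (hCASE1 : S_CASE1) (hCASE2 : S_CASE2) : S_MAIN := by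
  intro n m d p A hn hm hmn hS hH hd hcop
  have hP3 : Plane3 p := hR2 n m p A hS (by omega) hmn
  obtain ⟨a, b, hab⟩ := hZFP n m (d + 1) p (by omega) (by omega) hH hcop
  obtain ⟨a', b', Y, hZ, hY, haY, hbY, s, t, hst⟩ :=
    hNV n m (d + 1) p A a b (by omega) hm hmn (by omega) hS hH hab
  have hA0 : ∀ z : Fin n → ℂ, AA A ((0 : ℂ) • z) Y = 0 := by
    intro z
    rw [((hHOMA n m d p A (by omega) hS hH 0 z Y).1), zero_pow (by omega), zero_mul]
  -- the new plane
  obtain ⟨z1, z2, hz1Y, hz2Y, hZ12, hA1⟩ : ∃ z1 z2 : Fin n → ℂ, ∑ k, z1 k * Y k = 0 ∧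
      ∑ k, z2 k * Y k = 0 ∧ ZF p z1 z2 ∧ AA A z1 Y ≠ 0 := by
    have hz1 : ∑ k, (s • a' + t • b') k * Y k = 0 := by
      have e : ∑ k, (s • a' + t • b') k * Y k = s * ∑ k, a' k * Y k + t * ∑ k, b' k * Y k := by
        rw [Finset.mul_sum, Finset.mul_sum, ← Finset.sum_add_distrib]
        refine Finset.sum_congr rfl fun k _ => ?_
        simp only [Pi.add_apply, Pi.smul_apply, smul_eq_mul]
        ring
      rw [e, haY, hbY]; ring
    by_cases hs : s = 0
    · have ht : t ≠ 0 := by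
        rintro rfl
        apply hst
        have : s • a' + (0 : ℂ) • b' = (0 : ℂ) • b' := by rw [hs, zero_smul, zero_smul, zero_add]
        rw [this]
        exact hA0 b'
      refine ⟨s • a' + t • b', a', hz1, haY, ?_, hst⟩
      intro σ τ hστ
      have e : σ • (s • a' + t • b') + τ • a' = (σ * s + τ) • a' + (σ * t) • b' := by module
      rw [e]
      apply hZ
      by_cases hσ : σ = 0
      · left
        rcases hστ with h | h
        · exact absurd hσ h
        · rw [hσ, zero_mul, zero_add]; exact h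
      · right; exact mul_ne_zero hσ ht
    · refine ⟨s • a' + t • b', b', hz1, hbY, ?_, hst⟩
      intro σ τ hστ
      have e : σ • (s • a' + t • b') + τ • b' = (σ * s) • a' + (σ * t + τ) • b' := by module
      rw [e]
      apply hZ
      by_cases hσ : σ = 0
      · right
        rcases hστ with h | h
        · exact absurd hσ h
        · rw [hσ, zero_mul, zero_add]; exact h
      · left; exact mul_ne_zero hσ hs
  have hLI2 : LinearIndependent ℂ ![z1, z2] := hZFLI n m (d + 1) p z1 z2 (by omega) hH hZ12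
  obtain ⟨u, huY, hu⟩ := exists_perp hn Y z1 z2
  have hLI3 := li3_of_notMem hLI2 hu
  obtain ⟨ε, hε, hop⟩ := hOPEN n m (d + 1) p z1 z2 (by omega) hH hZ12
  have hu0 : 0 < ‖u‖ + 1 := by positivity
  have hZτ : ∀ τ : ℂ, ‖τ‖ < ε / (‖u‖ + 1) → ZF p z1 (z2 + τ • u) := by
    intro τ hτ
    apply hop
    · rw [sub_self, norm_zero]; exact hε
    · rw [add_sub_cancel_left, norm_smul]
      rw [lt_div_iff₀ hu0] at hτ
      refine lt_of_le_of_lt ?_ hτ
      exact mul_le_mul_of_nonneg_left (by linarith) (norm_nonneg τ)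
  by_cases hc : ∀ τ : ℂ, ‖τ‖ < ε / (‖u‖ + 1) → ∀ s s' : ℂ, AA A (s • z1 + z2 + τ • u) Y = 0 →
      AA A (s' • z1 + z2 + τ • u) Y = 0 → s = s'
  · exact hCASE2 n m d p A hS hH hd hP3 z1 z2 u Y (ε / (‖u‖ + 1)) (by positivity) hLI3 hz1Y hz2Y
      huY hA1 hZτ hc
  · push Not at hc
    obtain ⟨τ, hτ, s0, s0', h0, h0', hne⟩ := hc
    have hZF := hZτ τ hτ
    have hne' : s0' - s0 ≠ 0 := sub_ne_zero.2 (Ne.symm hne)
    refine hCASE1 n m d p A hS hH hP3 (s0 • z1 + z2 + τ • u) z1 u Y (s0' - s0)⁻¹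
      (li3_change hLI3 s0 τ) ?_ hz1Y huY ?_ h0 ?_ ⟨0, 1, ?_⟩
    · have e : ∑ k, (s0 • z1 + z2 + τ • u) k * Y k =
          s0 * ∑ k, z1 k * Y k + ∑ k, z2 k * Y k + τ * ∑ k, u k * Y k := by
        rw [Finset.mul_sum, Finset.mul_sum, ← Finset.sum_add_distrib, ← Finset.sum_add_distrib]
        refine Finset.sum_congr rfl fun k _ => ?_
        simp only [Pi.add_apply, Pi.smul_apply, smul_eq_mul]
        ring
      rw [e, hz1Y, hz2Y, huY]; ring
    · intro σ τ' hστ
      have e : σ • (s0 • z1 + z2 + τ • u) + τ' • z1 = (σ * s0 + τ') • z1 + σ • (z2 + τ • u) := by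
        module
      rw [e]
      apply hZF
      by_cases hσ : σ = 0
      · left
        rcases hστ with h | h
        · exact absurd hσ h
        · rw [hσ, zero_mul, zero_add]; exact h
      · right; exact hσ
    · have e : (s0' - s0)⁻¹ • (s0 • z1 + z2 + τ • u) + z1 =
          (s0' - s0)⁻¹ • (s0' • z1 + z2 + τ • u) := by
        have e1 : s0' • z1 + z2 + τ • u = (s0 • z1 + z2 + τ • u) + (s0' - s0) • z1 := by module
        have e2 : ∀ w : Fin n → ℂ, (s0' - s0)⁻¹ • w + z1 =
            (s0' - s0)⁻¹ • (w + (s0' - s0) • z1) := by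
          intro w
          rw [smul_add, smul_smul, inv_mul_cancel₀ hne', one_smul]
        rw [e1, e2]
      rw [e, (hHOMA n m d p A (by omega) hS hH _ _ Y).1, h0', mul_zero]
    · rw [zero_smul, zero_add, one_smul]
      exact hA1

end H81.FG
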