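import Pool.Agent.H95.FG.Defs

/-!
# Part OPEN of crew FG
-/

open MvPolynomial

namespace H81.FG

open H95.FG

theorem ev_smul {n m d : ℕ} {p : Fin m → MvPolynomial (Fin n) ℂ} (hH : Hom p d) (c : ℂ)
    (z : Fin n → ℂ) : ev p (c • z) = c ^ d • ev p z := by
  funext j
  change eval (c • z) (p j) = c ^ d • eval z (p j)
  rw [smul_eq_mul, MvPolynomial.eval_eq, MvPolynomial.eval_eq, Finset.mul_sum]
  refine Finset.sum_congr rfl fun s hs => ?_
  have hd : ∑ i ∈ s.support, s i = d := by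
    have := hH j (MvPolynomial.mem_support_iff.1 hs)
    rw [← this, Finsupp.weight_apply, Finsupp.sum]
    simp
  have h1 : ∏ i ∈ s.support, (c • z) i ^ s i = c ^ d * ∏ i ∈ s.support, z i ^ s i := by
    rw [← hd, ← Finset.prod_pow_eq_pow_sum, ← Finset.prod_mul_distrib]
    refine Finset.prod_congr rfl fun i _ => ?_
    rw [Pi.smul_apply, smul_eq_mul, mul_pow]
  rw [h1]; ring

theorem continuous_ev {n m : ℕ} (p : Fin m → MvPolynomial (Fin n) ℂ) :
    Continuous (fun z => ev p z) := by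
  refine continuous_pi fun j => ?_
  exact MvPolynomial.continuous_eval (p j)

theorem t_OPEN : S_OPEN := by
  intro n m d p a b hd hH hZ
  have hK : IsCompact (Metric.sphere (0 : ℂ × ℂ) 1) := isCompact_sphere _ _
  have key : ∀ᶠ x : (Fin n → ℂ) × (Fin n → ℂ) in nhds (a, b),
      ∀ y ∈ Metric.sphere (0 : ℂ × ℂ) 1, ev p (y.1 • x.1 + y.2 • x.2) ≠ 0 := by
    apply hK.eventually_forall_of_forall_eventually
    intro y hy
    have hc : Continuous (fun q : ((Fin n → ℂ) × (Fin n → ℂ)) × (ℂ × ℂ) =>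
        ev p (q.2.1 • q.1.1 + q.2.2 • q.1.2)) := by
      apply (continuous_ev p).comp
      fun_prop
    have hne : ev p (y.1 • a + y.2 • b) ≠ 0 := by
      apply hZ
      by_contra h
      push Not at h
      have : y = 0 := Prod.ext h.1 h.2
      rw [this] at hy
      simp at hy
    exact hc.continuousAt.eventually_ne hne
  rw [Metric.eventually_nhds_iff] at key
  obtain ⟨ε, hε, hk⟩ := key
  refine ⟨ε, hε, ?_⟩
  intro a' b' ha hb s t hst
  have hd' : dist (a', b') (a, b) < ε := by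
    rw [Prod.dist_eq]
    exact max_lt (by rw [dist_eq_norm]; exact ha) (by rw [dist_eq_norm]; exact hb)
  have hr0 : ‖((s, t) : ℂ × ℂ)‖ ≠ 0 := by
    rw [norm_ne_zero_iff]
    intro h
    rw [Prod.mk_eq_zero] at h
    rcases hst with h' | h'
    · exact h' h.1
    · exact h' h.2
  set r : ℝ := ‖((s, t) : ℂ × ℂ)‖ with hr
  have hrc : (r : ℂ) ≠ 0 := by exact_mod_cast hr0
  have hmem : ((r : ℂ)⁻¹ • ((s, t) : ℂ × ℂ)) ∈ Metric.sphere (0 : ℂ × ℂ) 1 := by
    rw [mem_sphere_zero_iff_norm, norm_smul, norm_inv, Complex.norm_real, ← hr,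
      Real.norm_of_nonneg (by rw [hr]; positivity), inv_mul_cancel₀ hr0]
  have h1 := hk hd' _ hmem
  intro h0
  apply h1
  have e : ((r : ℂ)⁻¹ • ((s, t) : ℂ × ℂ)).1 • (a', b').1 + ((r : ℂ)⁻¹ • ((s, t) : ℂ × ℂ)).2 •
      (a', b').2 = (r : ℂ)⁻¹ • (s • a' + t • b') := by
    simp only [Prod.smul_mk, smul_eq_mul, smul_add, smul_smul]
  rw [e, ev_smul hH, h0, smul_zero]

theorem t_ZFLI : S_ZFLI := by
  intro n m d p a b hd hH hZ
  rw [LinearIndependent.pair_iff]
  intro s t hst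
  by_contra hcon
  have h1 : s ≠ 0 ∨ t ≠ 0 := by
    by_contra h
    push Not at h
    exact hcon h
  apply hZ s t h1
  rw [hst]
  have : (0 : Fin n → ℂ) = (0 : ℂ) • (0 : Fin n → ℂ) := by rw [smul_zero]
  rw [this, ev_smul hH, zero_pow (by omega), zero_smul]

end H81.FG
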