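import Pool.Agent.H95.FG.Defs

/-!
# Part UNI of crew FG
-/

open MvPolynomial

namespace H81.FG

open H95.FG

theorem t_UNI : S_UNI := by
  classical
  intro n r e he v hv
  -- the extended family
  let v' : Fin n → EuclideanSpace ℂ (Fin n) :=
    fun j => if h : ∃ i, e i = j then v h.choose else 0
  have hv' : ∀ i, v' (e i) = v i := by
    intro i
    have h : ∃ i', e i' = e i := ⟨i, rfl⟩
    have h2 : h.choose = i := he h.choose_spec
    change (if h : ∃ i', e i' = e i then v h.choose else 0) = v i
    rw [dif_pos h, h2]
  have hort : Orthonormal ℂ ((Set.range e).domRestrict v') := by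
    have hinj : Function.Injective (fun j : Set.range e => j.2.choose) := by
      intro j j' hjj
      apply Subtype.ext
      have h1 := j.2.choose_spec
      have h2 := j'.2.choose_spec
      have h3 : j.2.choose = j'.2.choose := hjj
      rw [← h1, ← h2, h3]
    have h1 := hv.comp (fun j : Set.range e => j.2.choose) hinj
    have h2 : (Set.range e).domRestrict v' = v ∘ (fun j : Set.range e => j.2.choose) := by
      funext j
      change v' j = v j.2.choose
      have := hv' j.2.choose
      rw [j.2.choose_spec] at this
      exact this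
    rw [h2]
    exact h1
  obtain ⟨b, hb⟩ := hort.exists_orthonormalBasis_extension_of_card_eq (by simp)
  set Z : Matrix (Fin n) (Fin n) ℂ := Matrix.of (fun k j => b j k) with hZ
  have hZZ : Z.conjTranspose * Z = 1 := by
    ext i j
    rw [Matrix.mul_apply]
    have h1 : ∑ k, Z.conjTranspose i k * Z k j = inner ℂ (b i) (b j) := by
      rw [PiLp.inner_apply]
      refine Finset.sum_congr rfl fun k _ => ?_
      rw [Matrix.conjTranspose_apply, hZ, Matrix.of_apply, Matrix.of_apply]
      rw [RCLike.inner_apply]
      simp [mul_comm]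
    rw [h1, orthonormal_iff_ite.1 b.orthonormal i j, Matrix.one_apply]
  have hZZ' : Z * Z.conjTranspose = 1 := by
    rw [mul_eq_one_comm]; exact hZZ
  have hdet : Z.det ≠ 0 := by
    intro h0
    have := congrArg Matrix.det hZZ
    rw [Matrix.det_mul, h0, mul_zero, Matrix.det_one] at this
    exact zero_ne_one this
  have hadj : Z.adjugate = Z.det • Z.conjTranspose := by
    calc Z.adjugate = Z.adjugate * (Z * Z.conjTranspose) := by rw [hZZ', mul_one]
      _ = (Z.adjugate * Z) * Z.conjTranspose := by rw [mul_assoc]
      _ = Z.det • Z.conjTranspose := by rw [Matrix.adjugate_mul, smul_mul_assoc, one_mul]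
  refine ⟨Z, (Z.det)⁻¹, ?_, ?_⟩
  · intro i k
    rw [hZ, Matrix.of_apply, hb (e i) ⟨i, rfl⟩, hv']
  · intro x
    rw [hadj, Matrix.transpose_smul, Matrix.smul_mulVec, smul_smul, inv_mul_cancel₀ hdet,
      one_smul]
    funext k
    simp only [Matrix.mulVec, dotProduct, cv, Matrix.transpose_apply,
      Matrix.conjTranspose_apply, map_sum, map_mul]
    rfl

end H81.FG
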